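import Mathlib

/-!
# An explicit upper bound for equilateral sets in `l_1^n` (Kusner's conjecture)

An equilateral set of `N >= 2` points in `l_1^n` satisfies `N - 1 <= n (1 + log (N - 1) / 2)`; so
`N <= 1 + n (1 + log n)`, `N <= (1/2 + o(1)) n log n`, `N <= 11` for `n = 5`, `N <= 14` for `n = 6`.

Proof. For a real function `x` on the points let `Q(v) = - sum v_a v_b |x_a - x_b|`; it is
nonnegative when `sum v = 0` (cut representation). If `v` is the sequence of increments of
`w_j = sqrt (j (N - j) / N)`, arranged in the order of the values `x_a`, then every cut gives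
`Q(v) >= (1/N) sum |x_a - x_b|`. For an equilateral set with distance `t` the sum of the forms `Q`
over all coordinates is `t |v|^2`; so each coordinate has `(1/N) sum |x_a - x_b| <= t |v|^2`, and
summing over the coordinates `N - 1 <= n |v|^2`. Finally `|v|^2 <= 1 + log (N - 1) / 2`, by the
Cauchy-Schwarz inequality for `w_{j+1} - w_j = int w'`.
-/
set_option autoImplicit false
open MeasureTheory Finset

namespace Pool.Agent.Results.MP_ee26ba_co.LogBound

/-- threshold indicator -/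
noncomputable def I0 (x s : ℝ) : ℝ := if x ≤ s then 1 else 0

lemma abs_eq_integral (x y : ℝ) : |x - y| = ∫ s : ℝ, |I0 x s - I0 y s| := by
  have h : (fun s : ℝ => |I0 x s - I0 y s|) = Set.indicator (Set.Ico (min x y) (max x y)) (fun _ => (1:ℝ)) := by
    funext s
    unfold I0
    by_cases hx : x ≤ s <;> by_cases hy : y ≤ s
    · rw [Set.indicator_of_notMem]
      · simp [hx, hy]
      · simp only [Set.mem_Ico, not_and, not_lt]
        intro _; exact max_le hx hy
    · rw [Set.indicator_of_mem]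
      · simp [hx, hy]
      · refine ⟨(min_le_left _ _).trans hx, lt_of_lt_of_le (not_le.mp hy) (le_max_right _ _)⟩
    · rw [Set.indicator_of_mem]
      · simp [hx, hy]
      · refine ⟨(min_le_right _ _).trans hy, lt_of_lt_of_le (not_le.mp hx) (le_max_left _ _)⟩
    · rw [Set.indicator_of_notMem]
      · simp [hx, hy]
      · simp only [Set.mem_Ico, not_and, not_lt]
        intro h; exact absurd h (not_le.mpr (lt_min (not_le.mp hx) (not_le.mp hy)))
  rw [h, integral_indicator measurableSet_Ico]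
  simp [max_sub_min_eq_abs, abs_sub_comm]

lemma integrable_I (x y : ℝ) : Integrable (fun s : ℝ => |I0 x s - I0 y s|) := by
  have h : (fun s : ℝ => |I0 x s - I0 y s|) = Set.indicator (Set.Ico (min x y) (max x y)) (fun _ => (1:ℝ)) := by
    funext s
    unfold I0
    by_cases hx : x ≤ s <;> by_cases hy : y ≤ s
    · rw [Set.indicator_of_notMem]
      · simp [hx, hy]
      · simp only [Set.mem_Ico, not_and, not_lt]
        intro _; exact max_le hx hy
    · rw [Set.indicator_of_mem]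
      · simp [hx, hy]
      · refine ⟨(min_le_left _ _).trans hx, lt_of_lt_of_le (not_le.mp hy) (le_max_right _ _)⟩
    · rw [Set.indicator_of_mem]
      · simp [hx, hy]
      · refine ⟨(min_le_right _ _).trans hy, lt_of_lt_of_le (not_le.mp hx) (le_max_left _ _)⟩
    · rw [Set.indicator_of_notMem]
      · simp [hx, hy]
      · simp only [Set.mem_Ico, not_and, not_lt]
        intro h; exact absurd h (not_le.mpr (lt_min (not_le.mp hx) (not_le.mp hy)))
  rw [h]
  exact (integrable_indicator_iff measurableSet_Ico).mpr (by simp)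

/-- an inequality between sums of `|x a - x b|` follows from the one for cuts -/
lemma cut {N : ℕ} (c : Fin N → Fin N → ℝ) (x : Fin N → ℝ)
    (h : ∀ s : ℝ, 0 ≤ ∑ a, ∑ b, c a b * |I0 (x a) s - I0 (x b) s|) :
    0 ≤ ∑ a, ∑ b, c a b * |x a - x b| := by
  have e : ∑ a, ∑ b, c a b * |x a - x b| = ∫ s : ℝ, ∑ a, ∑ b, c a b * |I0 (x a) s - I0 (x b) s| := by
    rw [integral_finsetSum _ (fun a _ => integrable_finsetSum _ (fun b _ => (integrable_I _ _).const_mul _))]
    refine Finset.sum_congr rfl fun a _ => ?_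
    rw [integral_finsetSum _ (fun b _ => (integrable_I _ _).const_mul _)]
    refine Finset.sum_congr rfl fun b _ => ?_
    rw [integral_const_mul, ← abs_eq_integral]
  rw [e]
  exact integral_nonneg h

lemma I0_sq (x s : ℝ) : I0 x s * I0 x s = I0 x s := by
  unfold I0; split_ifs <;> simp

lemma abs_I (x y s : ℝ) : |I0 x s - I0 y s| = I0 x s + I0 y s - 2 * (I0 x s * I0 y s) := by
  unfold I0; split_ifs <;> norm_num

/-- quadratic form at a cut -/
lemma quad_cut {N : ℕ} (v : Fin N → ℝ) (hv : ∑ a, v a = 0) (x : Fin N → ℝ) (s : ℝ) :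
    ∑ a, ∑ b, (-(v a * v b)) * |I0 (x a) s - I0 (x b) s| = 2 * (∑ a, v a * I0 (x a) s) ^ 2 := by
  have h1 : ∀ a b, (-(v a * v b)) * |I0 (x a) s - I0 (x b) s| =
      -((v a * I0 (x a) s) * v b) - (v a * (v b * I0 (x b) s)) + 2 * ((v a * I0 (x a) s) * (v b * I0 (x b) s)) := by
    intro a b; rw [abs_I]; ring
  simp only [h1, Finset.sum_add_distrib, Finset.sum_sub_distrib, Finset.sum_neg_distrib, ← Finset.mul_sum, ← Finset.sum_mul, hv]
  ring

lemma count_cut {N : ℕ} (x : Fin N → ℝ) (s : ℝ) :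
    ∑ a, ∑ b, |I0 (x a) s - I0 (x b) s| = 2 * ((∑ a, I0 (x a) s) * (N - ∑ a, I0 (x a) s)) := by
  have h1 : ∀ a b, |I0 (x a) s - I0 (x b) s| =
      I0 (x a) s + I0 (x b) s - 2 * (I0 (x a) s * I0 (x b) s) := fun a b => abs_I _ _ _
  simp only [h1, Finset.sum_add_distrib, Finset.sum_sub_distrib, ← Finset.mul_sum, ← Finset.sum_mul,
    Finset.sum_const, Finset.card_univ, Fintype.card_fin, nsmul_eq_mul]
  ring

/-- `|x-y|` is of negative type -/
lemma neg_type {N : ℕ} (v : Fin N → ℝ) (hv : ∑ a, v a = 0) (x : Fin N → ℝ) :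
    0 ≤ ∑ a, ∑ b, (-(v a * v b)) * |x a - x b| := by
  apply cut
  intro s
  rw [quad_cut v hv]
  positivity

lemma threshold {N : ℕ} (y : Fin N → ℝ) (hy : Monotone y) (s : ℝ) :
    ∃ j : ℕ, j ≤ N ∧ ∀ k : Fin N, (y k ≤ s ↔ (k : ℕ) < j) := by
  classical
  by_cases h : ∃ m : ℕ, ∃ hm : m < N, s < y ⟨m, hm⟩
  · refine ⟨Nat.find h, ?_, ?_⟩
    · obtain ⟨hm, _⟩ := Nat.find_spec h
      exact hm.le
    · intro k
      obtain ⟨hm, hs⟩ := Nat.find_spec h
      constructor
      · intro hk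
        by_contra hlt
        push Not at hlt
        have : y ⟨Nat.find h, hm⟩ ≤ y k := hy (by exact hlt)
        linarith
      · intro hk
        by_contra hlt
        push Not at hlt
        exact Nat.find_min h hk ⟨k.2, hlt⟩
  · refine ⟨N, le_rfl, fun k => ⟨fun _ => k.2, fun _ => ?_⟩⟩
    by_contra hlt
    push Not at hlt
    exact h ⟨k, k.2, hlt⟩


lemma sum_cut_fin {N : ℕ} (f : ℕ → ℝ) (j : ℕ) (hj : j ≤ N) :
    ∑ k : Fin N, f k * (if (k : ℕ) < j then (1:ℝ) else 0) = ∑ k ∈ range j, f k := by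
  rw [Fin.sum_univ_eq_sum_range (fun k => f k * (if k < j then (1:ℝ) else 0)) N]
  rw [← Finset.sum_subset (Finset.range_subset_range.mpr hj)]
  · refine Finset.sum_congr rfl fun k hk => ?_
    rw [if_pos (Finset.mem_range.mp hk), mul_one]
  · intro k _ hk
    rw [if_neg (by simpa using hk), mul_zero]

lemma keyB {N : ℕ} (x : Fin N → ℝ) (w : ℕ → ℝ) (w0 : w 0 = 0) (wN : w N = 0)
    (hw : ∀ j : ℕ, j ≤ N → (j : ℝ) * (N - j) / N ≤ w j ^ 2) :
    ∃ v : Fin N → ℝ, ∑ a, v a = 0 ∧ ∑ a, v a ^ 2 = ∑ j ∈ range N, (w (j + 1) - w j) ^ 2 ∧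
      0 ≤ ∑ a, ∑ b, (-(v a * v b) - 1 / N) * |x a - x b| := by
  classical
  set σ := Tuple.sort x with hσ
  have hmono : Monotone (x ∘ σ) := Tuple.monotone_sort x
  let v : Fin N → ℝ := fun a => w ((σ.symm a : ℕ) + 1) - w (σ.symm a : ℕ)
  have hvσ : ∀ k : Fin N, v (σ k) = w ((k : ℕ) + 1) - w (k : ℕ) := by
    intro k; simp [v]
  have hsum : ∑ a, v a = 0 := by
    rw [← Equiv.sum_comp σ v]
    simp only [hvσ]
    rw [Fin.sum_univ_eq_sum_range (fun k => w (k + 1) - w k) N, Finset.sum_range_sub, w0, wN, sub_zero]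
  refine ⟨v, hsum, ?_, ?_⟩
  · rw [← Equiv.sum_comp σ (fun a => v a ^ 2)]
    simp only [hvσ]
    rw [Fin.sum_univ_eq_sum_range (fun k => (w (k + 1) - w k) ^ 2) N]
  · apply cut
    intro s
    have e1 : ∑ a, ∑ b, (-(v a * v b) - 1 / N) * |I0 (x a) s - I0 (x b) s| =
        ∑ a, ∑ b, (-(v a * v b)) * |I0 (x a) s - I0 (x b) s| -
          1 / N * ∑ a, ∑ b, |I0 (x a) s - I0 (x b) s| := by
      simp only [sub_mul, Finset.sum_sub_distrib, Finset.mul_sum]
    rw [e1, quad_cut v hsum, count_cut]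
    obtain ⟨j, hj, hjk⟩ := threshold (x ∘ σ) hmono s
    have hI : ∀ k : Fin N, I0 (x (σ k)) s = if (k : ℕ) < j then (1:ℝ) else 0 := by
      intro k
      unfold I0
      by_cases h : x (σ k) ≤ s
      · rw [if_pos h, if_pos ((hjk k).mp h)]
      · rw [if_neg h, if_neg (fun h' => h ((hjk k).mpr h'))]
    have e2 : ∑ a, v a * I0 (x a) s = w j := by
      rw [← Equiv.sum_comp σ (fun a => v a * I0 (x a) s)]
      simp only [hvσ, hI]
      rw [sum_cut_fin (fun k => w (k + 1) - w k) j hj, Finset.sum_range_sub, w0, sub_zero]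
    have e3 : ∑ a, I0 (x a) s = (j : ℝ) := by
      rw [← Equiv.sum_comp σ (fun a => I0 (x a) s)]
      simp only [hI]
      have := sum_cut_fin (N := N) (fun _ => (1:ℝ)) j hj
      simp only [one_mul] at this
      rw [this]; simp
    rw [e2, e3]
    have := hw j hj
    have h2 : 1 / (N : ℝ) * (2 * ((j : ℝ) * (N - j))) = 2 * ((j : ℝ) * (N - j) / N) := by ring
    rw [h2]; linarith

/-- the main inequality -/
lemma main_ineq {n N : ℕ} (hN : 1 ≤ N) (w : ℕ → ℝ) (w0 : w 0 = 0) (wN : w N = 0)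
    (hw : ∀ j : ℕ, j ≤ N → (j : ℝ) * (N - j) / N ≤ w j ^ 2)
    (p : Fin N → Fin n → ℝ) (t : ℝ) (ht : 0 < t)
    (hp : ∀ a b, a ≠ b → ∑ i, |p a i - p b i| = t) :
    (N : ℝ) - 1 ≤ n * ∑ j ∈ range N, (w (j + 1) - w j) ^ 2 := by
  classical
  set S := ∑ j ∈ range N, (w (j + 1) - w j) ^ 2 with hS
  have hN0 : (0 : ℝ) < N := by exact_mod_cast hN
  -- total distance sums
  have hd : ∀ a b, ∑ i, |p a i - p b i| = if a = b then 0 else t := by
    intro a b
    by_cases h : a = b
    · subst h; simp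
    · rw [if_neg h, hp a b h]
  have tot : ∀ c : Fin N → Fin N → ℝ, ∑ i, ∑ a, ∑ b, c a b * |p a i - p b i| =
      t * (∑ a, ∑ b, c a b - ∑ a, c a a) := by
    intro c
    have : ∑ i, ∑ a, ∑ b, c a b * |p a i - p b i| = ∑ a, ∑ b, c a b * ∑ i, |p a i - p b i| := by
      rw [Finset.sum_comm]
      refine Finset.sum_congr rfl fun a _ => ?_
      rw [Finset.sum_comm]
      refine Finset.sum_congr rfl fun b _ => ?_
      rw [Finset.mul_sum]
    rw [this]
    simp only [hd]
    rw [← Finset.sum_sub_distrib, Finset.mul_sum]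
    refine Finset.sum_congr rfl fun a _ => ?_
    have : ∀ b, c a b * (if a = b then 0 else t) = t * c a b - (if a = b then t * c a b else 0) := by
      intro b; split_ifs <;> ring
    simp only [this, Finset.sum_sub_distrib, Finset.sum_ite_eq, Finset.mem_univ, if_true, ← Finset.mul_sum]
    ring
  -- for each coordinate
  have each : ∀ i : Fin n, 1 / (N : ℝ) * ∑ a, ∑ b, |p a i - p b i| ≤ t * S := by
    intro i
    obtain ⟨v, hv0, hv2, hv⟩ := keyB (fun a => p a i) w w0 wN hw
    have h1 : ∑ i', ∑ a, ∑ b, (-(v a * v b)) * |p a i' - p b i'| = t * S := by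
      rw [tot]
      have : ∑ a, ∑ b, (-(v a * v b)) = 0 := by
        simp only [Finset.sum_neg_distrib, ← Finset.mul_sum, hv0]; simp
      rw [this, hS, ← hv2]
      have : ∑ a, (-(v a * v a)) = - ∑ a, v a ^ 2 := by
        rw [Finset.sum_neg_distrib]; congr 1; exact Finset.sum_congr rfl fun a _ => by ring
      rw [this]; ring
    have h2 : ∑ a, ∑ b, (-(v a * v b)) * |p a i - p b i| ≤ ∑ i', ∑ a, ∑ b, (-(v a * v b)) * |p a i' - p b i'| :=
      Finset.single_le_sum (f := fun i' => ∑ a, ∑ b, (-(v a * v b)) * |p a i' - p b i'|)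
        (fun i' _ => neg_type v hv0 (fun a => p a i')) (Finset.mem_univ i)
    have h3 : ∑ a, ∑ b, (-(v a * v b) - 1 / N) * |p a i - p b i| =
        ∑ a, ∑ b, (-(v a * v b)) * |p a i - p b i| - 1 / N * ∑ a, ∑ b, |p a i - p b i| := by
      simp only [sub_mul, Finset.sum_sub_distrib, Finset.mul_sum]
    rw [h3] at hv
    linarith
  have h4 : ∑ i : Fin n, (1 / (N : ℝ) * ∑ a, ∑ b, |p a i - p b i|) ≤ ∑ _i : Fin n, t * S :=
    Finset.sum_le_sum fun i _ => each i
  rw [← Finset.mul_sum] at h4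
  have h5 : ∑ i : Fin n, ∑ a, ∑ b, |p a i - p b i| = t * (N * N - N) := by
    have := tot (fun _ _ => 1)
    simp only [one_mul] at this
    rw [this]; simp
  rw [h5, Finset.sum_const, Finset.card_univ, Fintype.card_fin, nsmul_eq_mul] at h4
  have h6 : 1 / (N : ℝ) * (t * (N * N - N)) = t * (N - 1) := by field_simp
  rw [h6] at h4
  have : t * ((N : ℝ) - 1) ≤ t * (n * S) := by linarith
  exact le_of_mul_le_mul_left this ht

lemma step (M x : ℝ) (hx : 0 < x) (hxM : x + 1 < M) :
    (Real.sqrt ((x + 1) * (M - (x + 1)) / M) - Real.sqrt (x * (M - x) / M)) ^ 2 ≤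
      (1 / 4) * (Real.log (x + 1) - Real.log (M - (x + 1)) - 4 * (x + 1) / M) -
        (1 / 4) * (Real.log x - Real.log (M - x) - 4 * x / M) := by
  set c := Real.sqrt ((x + 1) * (M - (x + 1)) / M) - Real.sqrt (x * (M - x) / M) with hc
  have hM : 0 < M := by linarith
  let G : ℝ → ℝ := fun y => (1 / 4) * (Real.log y - Real.log (M - y) - 4 * y / M) -
    2 * c * Real.sqrt (y * (M - y) / M) + c ^ 2 * y
  have hder : ∀ y : ℝ, 0 < y → y < M → HasDerivAt G
      ((1 / 4) * (y⁻¹ - (0 - 1) / (M - y) - 4 * 1 / M) -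
        2 * c * (((1 * (M - y) + y * (0 - 1)) / M) / (2 * Real.sqrt (y * (M - y) / M))) + c ^ 2 * 1) y := by
    intro y hy hyM
    have hyM' : 0 < M - y := by linarith
    have h1 : HasDerivAt (fun y : ℝ => Real.log y) y⁻¹ y := Real.hasDerivAt_log hy.ne'
    have hs : HasDerivAt (fun y : ℝ => M - y) (0 - 1) y := (hasDerivAt_const y M).sub (hasDerivAt_id' y)
    have h2 : HasDerivAt (fun y : ℝ => Real.log (M - y)) ((0 - 1) / (M - y)) y := hs.log hyM'.ne'
    have h3 : HasDerivAt (fun y : ℝ => 4 * y / M) (4 * 1 / M) y := ((hasDerivAt_id' y).const_mul 4).div_const M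
    have h4 : HasDerivAt (fun y : ℝ => y * (M - y) / M) ((1 * (M - y) + y * (0 - 1)) / M) y :=
      ((hasDerivAt_id' y).mul hs).div_const M
    have hpos : y * (M - y) / M ≠ 0 := by positivity
    have h5 := h4.sqrt hpos
    exact ((((h1.sub h2).sub h3).const_mul (1 / 4)).sub (h5.const_mul (2 * c))).add ((hasDerivAt_id' y).const_mul (c ^ 2))
  have hnn : ∀ y : ℝ, 0 < y → y < M → 0 ≤ (1 / 4) * (y⁻¹ - (0 - 1) / (M - y) - 4 * 1 / M) -
        2 * c * (((1 * (M - y) + y * (0 - 1)) / M) / (2 * Real.sqrt (y * (M - y) / M))) + c ^ 2 * 1 := by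
    intro y hy hyM
    have hyM' : 0 < M - y := by linarith
    have hpos : 0 < y * (M - y) / M := by positivity
    set W := Real.sqrt (y * (M - y) / M) with hW
    have hWpos : 0 < W := Real.sqrt_pos.mpr hpos
    have hW2 : W ^ 2 = y * (M - y) / M := Real.sq_sqrt hpos.le
    have key : (1 / 4) * (y⁻¹ - (0 - 1) / (M - y) - 4 * 1 / M) =
        (((1 * (M - y) + y * (0 - 1)) / M) / (2 * W)) ^ 2 := by
      rw [div_pow, mul_pow, hW2]
      field_simp
      ring
    rw [key]
    nlinarith [sq_nonneg ((((1 * (M - y) + y * (0 - 1)) / M) / (2 * W)) - c)]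
  have hmono : MonotoneOn G (Set.Icc x (x + 1)) := by
    apply monotoneOn_of_deriv_nonneg (convex_Icc _ _)
    · intro y hy
      exact (hder y (by linarith [hy.1]) (by linarith [hy.2])).continuousAt.continuousWithinAt
    · intro y hy
      rw [interior_Icc] at hy
      exact (hder y (by linarith [hy.1]) (by linarith [hy.2])).differentiableAt.differentiableWithinAt
    · intro y hy
      rw [interior_Icc] at hy
      rw [(hder y (by linarith [hy.1]) (by linarith [hy.2])).deriv]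
      exact hnn y (by linarith [hy.1]) (by linarith [hy.2])
  have := hmono (Set.left_mem_Icc.mpr (by linarith)) (Set.right_mem_Icc.mpr (by linarith)) (by linarith : x ≤ x + 1)
  simp only [G] at this
  have e : 2 * c * Real.sqrt ((x + 1) * (M - (x + 1)) / M) - 2 * c * Real.sqrt (x * (M - x) / M) = 2 * c ^ 2 := by
    rw [← mul_sub, ← hc]; ring
  nlinarith [this, e]

noncomputable def W (N j : ℕ) : ℝ := Real.sqrt ((j : ℝ) * (N - j) / N)

lemma Sbound (N : ℕ) (hN : 2 ≤ N) :
    ∑ j ∈ range N, (W N (j + 1) - W N j) ^ 2 ≤ 1 + (1 / 2) * Real.log (N - 1) := by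
  obtain ⟨m, rfl⟩ : ∃ m, N = m + 2 := ⟨N - 2, by omega⟩
  have hM : (0 : ℝ) < ((m + 2 : ℕ) : ℝ) := by positivity
  set M : ℝ := ((m + 2 : ℕ) : ℝ) with hMdef
  have hMm : M = m + 2 := by rw [hMdef]; push_cast; ring
  let F : ℕ → ℝ := fun j => (1 / 4) * (Real.log ((j : ℝ) + 1) - Real.log (M - ((j : ℝ) + 1)) - 4 * ((j : ℝ) + 1) / M)
  rw [Finset.sum_range_succ, Finset.sum_range_succ']
  have hmid : ∑ j ∈ range m, (W (m + 2) (j + 1 + 1) - W (m + 2) (j + 1)) ^ 2 ≤ ∑ j ∈ range m, (F (j + 1) - F j) := by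
    refine Finset.sum_le_sum fun j hj => ?_
    have hjm : (j : ℝ) + 1 ≤ m := by exact_mod_cast Finset.mem_range.mp hj
    have hst := step M ((j : ℝ) + 1) (by positivity) (by rw [hMm]; linarith)
    have eL : (W (m + 2) (j + 1 + 1) - W (m + 2) (j + 1)) ^ 2 =
        (Real.sqrt (((j : ℝ) + 1 + 1) * (M - ((j : ℝ) + 1 + 1)) / M) - Real.sqrt (((j : ℝ) + 1) * (M - ((j : ℝ) + 1)) / M)) ^ 2 := by
      simp only [W]
      rw [← hMdef]
      push_cast
      rfl
    have eR : F (j + 1) - F j = 1 / 4 * (Real.log ((j : ℝ) + 1 + 1) - Real.log (M - ((j : ℝ) + 1 + 1)) - 4 * ((j : ℝ) + 1 + 1) / M) -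
      1 / 4 * (Real.log ((j : ℝ) + 1) - Real.log (M - ((j : ℝ) + 1)) - 4 * ((j : ℝ) + 1) / M) := by
      simp only [F]
      push_cast
      rfl
    rw [eL, eR]
    exact hst
  rw [Finset.sum_range_sub] at hmid
  have h0 : (W (m + 2) (0 + 1) - W (m + 2) 0) ^ 2 = (M - 1) / M := by
    have : W (m + 2) 0 = 0 := by unfold W; simp
    rw [this, sub_zero]
    unfold W
    rw [Real.sq_sqrt]
    · push_cast; rw [hMm]; ring
    · have : (0:ℝ) ≤ m := Nat.cast_nonneg m
      push_cast
      apply div_nonneg <;> nlinarith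
  have h1 : (W (m + 2) (m + 1 + 1) - W (m + 2) (m + 1)) ^ 2 = (M - 1) / M := by
    have : W (m + 2) (m + 1 + 1) = 0 := by unfold W; push_cast; ring_nf; simp
    rw [this, zero_sub, neg_sq]
    unfold W
    rw [Real.sq_sqrt]
    · push_cast; rw [hMm]; ring
    · have : (0:ℝ) ≤ m := Nat.cast_nonneg m
      push_cast
      apply div_nonneg <;> nlinarith
  rw [h0, h1]
  have hF : F m - F 0 = (1 / 2) * Real.log (M - 1) - (M - 2) / M := by
    simp only [F]
    have e1 : (m : ℝ) + 1 = M - 1 := by rw [hMm]; ring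
    have e2 : M - (M - 1) = 1 := by ring
    rw [e1, e2]
    push_cast
    rw [zero_add, Real.log_one]
    field_simp
    ring
  rw [hF] at hmid
  have : (M - 1) / M + (M - 1) / M - (M - 2) / M = 1 := by field_simp; ring
  linarith


/-- `N` points `p_a` of `l_1^n` at pairwise `l_1`-distance `t`, for some `t > 0`. -/
def IsEquilateral {n N : ℕ} (p : Fin N → Fin n → ℝ) : Prop :=
  ∃ t : ℝ, 0 < t ∧ ∀ a b : Fin N, a ≠ b → ∑ i, |p a i - p b i| = t

lemma bound {n N : ℕ} (hN : 2 ≤ N) (p : Fin N → Fin n → ℝ) (h : IsEquilateral p) :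
    (N : ℝ) - 1 ≤ n * (1 + (1 / 2) * Real.log (N - 1)) := by
  obtain ⟨t, ht, hp⟩ := h
  have hN0 : (0 : ℝ) < N := by exact_mod_cast (by omega : 0 < N)
  have h1 := main_ineq (n := n) (by omega : 1 ≤ N) (W N) (by unfold W; simp) (by unfold W; simp)
    (by
      intro j hj
      unfold W
      rw [Real.sq_sqrt]
      have : (j : ℝ) ≤ N := by exact_mod_cast hj
      apply div_nonneg _ hN0.le
      exact mul_nonneg (Nat.cast_nonneg j) (by linarith)) p t ht hp
  have h2 := Sbound N hN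
  exact h1.trans (mul_le_mul_of_nonneg_left h2 (Nat.cast_nonneg n))

lemma from_log (a n m : ℝ) (ha : 0 < a) (hn : 0 < n) (hm : 0 < m)
    (h : m ≤ n * (1 + (1 / 2) * Real.log m)) : (1 - 1 / (2 * a)) * m ≤ (n / 2) * (1 + Real.log (a * n)) := by
  have h1 := Real.log_le_sub_one_of_pos (show 0 < m / (a * n) by positivity)
  rw [Real.log_div hm.ne' (by positivity)] at h1
  have h2 : n * (1 + (1 / 2) * Real.log m) ≤ n * (1 + (1 / 2) * (m / (a * n) - 1 + Real.log (a * n))) := by
    apply mul_le_mul_of_nonneg_left _ hn.le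
    linarith
  have h3 : n * (1 + (1 / 2) * (m / (a * n) - 1 + Real.log (a * n))) =
      (n / 2) * (1 + Real.log (a * n)) + 1 / (2 * a) * m := by
    field_simp
    ring
  linarith

lemma log11 : Real.log 11 < 12 / 5 := by
  have h : (11 : ℝ) ^ 5 < Real.exp 1 ^ 12 := by
    have := Real.exp_one_gt_d9
    calc (11 : ℝ) ^ 5 < 2.7182818283 ^ 12 := by norm_num
      _ < Real.exp 1 ^ 12 := pow_lt_pow_left₀ this (by norm_num) (by norm_num)
  rw [← Real.exp_nat_mul] at h
  have h2 := Real.log_lt_log (by positivity) h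
  rw [Real.log_exp, Real.log_pow] at h2
  push_cast at h2
  linarith

lemma log14 : Real.log 14 < 8 / 3 := by
  have h : (14 : ℝ) ^ 3 < Real.exp 1 ^ 8 := by
    have := Real.exp_one_gt_d9
    calc (14 : ℝ) ^ 3 < 2.7182818283 ^ 8 := by norm_num
      _ < Real.exp 1 ^ 8 := pow_lt_pow_left₀ this (by norm_num) (by norm_num)
  rw [← Real.exp_nat_mul] at h
  have h2 := Real.log_lt_log (by positivity) h
  rw [Real.log_exp, Real.log_pow] at h2
  push_cast at h2
  linarith

lemma log_tangent (m b : ℝ) (hm : 0 < m) (hb : 0 < b) : Real.log m ≤ Real.log b + (m / b - 1) := by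
  have h1 := Real.log_le_sub_one_of_pos (show 0 < m / b by positivity)
  rw [Real.log_div hm.ne' hb.ne'] at h1
  linarith

/-- Explicit bounds for equilateral sets in `l_1^n`. -/
theorem result :
    (∀ (n N : ℕ) (p : Fin N → Fin n → ℝ), 2 ≤ N → IsEquilateral p →
      (N : ℝ) - 1 ≤ n * (1 + (1 / 2) * Real.log (N - 1))) ∧
    (∀ (n N : ℕ) (p : Fin N → Fin n → ℝ), 1 ≤ n → IsEquilateral p →
      (N : ℝ) ≤ 1 + n * (1 + Real.log n)) ∧
    (∀ ε : ℝ, 0 < ε → ∃ C : ℝ, ∀ (n N : ℕ) (p : Fin N → Fin n → ℝ), 1 ≤ n → IsEquilateral p →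
      (N : ℝ) ≤ (1 / 2 + ε) * n * Real.log n + C * n) ∧
    (∀ (N : ℕ) (p : Fin N → Fin 5 → ℝ), IsEquilateral p → N ≤ 11) ∧
    (∀ (N : ℕ) (p : Fin N → Fin 6 → ℝ), IsEquilateral p → N ≤ 14) := by
  refine ⟨fun n N p hN h => bound hN p h, ?_, ?_, ?_, ?_⟩
  · intro n N p hn h
    have hn0 : (0 : ℝ) < n := by exact_mod_cast hn
    have hlog : 0 ≤ Real.log n := Real.log_nonneg (by exact_mod_cast hn)
    by_cases hN : 2 ≤ N
    · have hm : (0 : ℝ) < (N : ℝ) - 1 := by
        have : (2 : ℝ) ≤ N := by exact_mod_cast hN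
        linarith
      have := from_log 1 n ((N : ℝ) - 1) one_pos hn0 hm (bound hN p h)
      rw [one_mul] at this
      linarith
    · have : (N : ℝ) ≤ 1 := by exact_mod_cast (by omega : N ≤ 1)
      have h2 : 0 ≤ (n : ℝ) * (1 + Real.log n) := by positivity
      linarith
  · intro ε hε
    set a : ℝ := (1 + 2 * ε) / (4 * ε) with ha
    have ha0 : 0 < a := by positivity
    refine ⟨(1 / 2 + ε) * (1 + |Real.log a|) + 1, ?_⟩
    intro n N p hn h
    have hn1 : (1 : ℝ) ≤ n := by exact_mod_cast hn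
    have hn0 : (0 : ℝ) < n := by linarith
    have hlog : 0 ≤ Real.log n := Real.log_nonneg hn1
    have habs := abs_nonneg (Real.log a)
    by_cases hN : 2 ≤ N
    · have hm : (0 : ℝ) < (N : ℝ) - 1 := by
        have : (2 : ℝ) ≤ N := by exact_mod_cast hN
        linarith
      have h1 := from_log a n ((N : ℝ) - 1) ha0 hn0 hm (bound hN p h)
      have h2 : 1 - 1 / (2 * a) = 1 / (1 + 2 * ε) := by
        rw [ha]; field_simp; ring
      rw [h2, Real.log_mul ha0.ne' hn0.ne'] at h1
      have h3 : (N : ℝ) - 1 ≤ (1 + 2 * ε) * ((n / 2) * (1 + (Real.log a + Real.log n))) := by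
        have h5 : (0:ℝ) < 1 + 2 * ε := by positivity
        have h4 : (1 + 2 * ε) * (1 / (1 + 2 * ε) * ((N : ℝ) - 1)) ≤ (1 + 2 * ε) * ((n / 2) * (1 + (Real.log a + Real.log n))) :=
          mul_le_mul_of_nonneg_left h1 h5.le
        have h6 : (1 + 2 * ε) * (1 / (1 + 2 * ε) * ((N : ℝ) - 1)) = (N : ℝ) - 1 := by field_simp
        linarith
      have h7 : (1 / 2 + ε) * n * Real.log a ≤ (1 / 2 + ε) * n * |Real.log a| :=
        mul_le_mul_of_nonneg_left (le_abs_self _) (by positivity)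
      nlinarith [h3, h7]
    · have h1 : (N : ℝ) ≤ 1 := by exact_mod_cast (by omega : N ≤ 1)
      have h2 : 0 ≤ (1 / 2 + ε) * n * Real.log n := by positivity
      have h3 : 0 ≤ (1 / 2 + ε) * (1 + |Real.log a|) * n := by positivity
      nlinarith
  · intro N p h
    by_contra hcon
    push Not at hcon
    have h1 := bound (by omega) p h
    have hN : (12 : ℝ) ≤ N := by exact_mod_cast hcon
    have h2 := log_tangent ((N : ℝ) - 1) 11 (by linarith) (by norm_num)
    have h3 := log11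
    push_cast at h1
    linarith
  · intro N p h
    by_contra hcon
    push Not at hcon
    have h1 := bound (by omega) p h
    have hN : (15 : ℝ) ≤ N := by exact_mod_cast hcon
    have h2 := log_tangent ((N : ℝ) - 1) 14 (by linarith) (by norm_num)
    have h3 := log14
    push_cast at h1
    linarith

end Pool.Agent.Results.MP_ee26ba_co.LogBound
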